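import Pool.Agent.P8H39.TI.Stm

/-! Project TI of helper39, package HA (helper4): sums of harmonic functions over `k`-sets. -/

set_option autoImplicit false

namespace Pool.Agent.P8H4.TI

open Finset
open Pool.Agent.P8H39.TI

variable {n : ℕ}

theorem up_harm {j : ℕ} {u : Finset (Fin n) → ℝ} (hu : Harm n j u) (Y : Finset (Fin n)) :
    up n j u Y = if Y.card = j then u Y else 0 := by
  rcases lt_trichotomy Y.card j with h | h | h
  · rw [if_neg (by omega)]
    exact hu Y h
  · rw [if_pos h]
    unfold up
    rw [Finset.sum_eq_single Y]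
    · intro A hA hne
      rw [mem_filter, mem_powersetCard] at hA
      exact absurd (Finset.eq_of_subset_of_card_le hA.2 (by omega)).symm hne
    · intro hY
      exact absurd (mem_filter.2 ⟨mem_powersetCard.2 ⟨subset_univ _, h⟩, Subset.rfl⟩) hY
  · rw [if_neg (by omega)]
    unfold up
    refine Finset.sum_eq_zero fun A hA => ?_
    rw [mem_filter, mem_powersetCard] at hA
    have := card_le_card hA.2
    omega

theorem harm_sum {j : ℕ} {u : Finset (Fin n) → ℝ} (hu : Harm n j u) (c : ℕ → ℝ)
    (R : Finset (Fin n)) :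
    ∑ X ∈ slice n j, u X * (∑ Y ∈ R.powerset, if Y ⊆ X then c Y.card else 0) = c j * dn j u R := by
  have h1 : ∑ X ∈ slice n j, u X * (∑ Y ∈ R.powerset, if Y ⊆ X then c Y.card else 0) =
      ∑ Y ∈ R.powerset, c Y.card * up n j u Y := by
    simp only [Finset.mul_sum]
    rw [Finset.sum_comm]
    refine Finset.sum_congr rfl fun Y _ => ?_
    unfold up
    rw [Finset.mul_sum, Finset.sum_filter]
    refine Finset.sum_congr rfl fun X _ => ?_
    split_ifs
    · ring
    · ring
  rw [h1]
  simp only [up_harm hu]
  unfold dn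
  rw [Finset.powersetCard_eq_filter, Finset.sum_filter, Finset.mul_sum]
  refine Finset.sum_congr rfl fun Y _ => ?_
  split_ifs with h
  · rw [h]
  · ring

/-- the double counting -/
theorem swap {j k : ℕ} (u : Finset (Fin n) → ℝ) (p : Finset (Fin n) → Prop) [DecidablePred p] :
    ∑ A ∈ (slice n k).filter p, dn j u A =
      ∑ X ∈ slice n j, u X * (((slice n k).filter fun A => p A ∧ X ⊆ A).card : ℝ) := by
  have h1 : ∀ A : Finset (Fin n), dn j u A = ∑ X ∈ slice n j, if X ⊆ A then u X else 0 := by
    intro A
    unfold dn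
    rw [← Finset.sum_filter]
    refine Finset.sum_congr ?_ fun _ _ => rfl
    ext X
    rw [mem_filter, mem_powersetCard, mem_powersetCard]
    exact ⟨fun h => ⟨⟨subset_univ _, h.2⟩, h.1⟩, fun h => ⟨h.2, h.1.2⟩⟩
  simp only [h1]
  rw [Finset.sum_comm]
  refine Finset.sum_congr rfl fun X _ => ?_
  rw [← Finset.sum_filter, Finset.filter_filter, Finset.sum_const, nsmul_eq_mul, mul_comm]

theorem card_super {k : ℕ} (hk : k ≤ n) (S : Finset (Fin n)) :
    ((slice n k).filter fun A => S ⊆ A).card = (n - S.card).choose (n - k) := by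
  rw [show (n - S.card).choose (n - k) = (powersetCard (n - k) Sᶜ).card by
    rw [card_powersetCard, card_compl, Fintype.card_fin]]
  refine Finset.card_bij' (fun A _ => Aᶜ) (fun A _ => Aᶜ) ?_ ?_ ?_ ?_
  · intro A hA
    rw [mem_filter, mem_powersetCard] at hA
    rw [mem_powersetCard, compl_subset_compl, card_compl, Fintype.card_fin, hA.1.2]
    exact ⟨hA.2, rfl⟩
  · intro A hA
    rw [mem_powersetCard] at hA
    rw [mem_filter, mem_powersetCard, card_compl, Fintype.card_fin, hA.2]
    refine ⟨⟨subset_univ _, by omega⟩, ?_⟩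
    rw [← compl_subset_compl, compl_compl]
    exact hA.1
  · intro A _
    exact compl_compl A
  · intro A _
    exact compl_compl A

theorem card_disj {k j : ℕ} (I X : Finset (Fin n)) (hX : X.card = j) (hjk : j ≤ k)
    (hIX : Disjoint I X) :
    ((slice n k).filter fun A => Disjoint A I ∧ X ⊆ A).card = (n - I.card - j).choose (k - j) := by
  rw [show (n - I.card - j).choose (k - j) = (powersetCard (k - j) (I ∪ X)ᶜ).card by
    rw [card_powersetCard, card_compl, Fintype.card_fin, card_union_of_disjoint hIX, hX,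
      Nat.sub_sub]]
  refine Finset.card_bij' (fun A _ => A \ X) (fun B _ => B ∪ X) ?_ ?_ ?_ ?_
  · intro A hA
    rw [mem_filter, mem_powersetCard] at hA
    rw [mem_powersetCard, card_sdiff_of_subset hA.2.2, hX, hA.1.2]
    refine ⟨fun a ha => ?_, rfl⟩
    rw [mem_sdiff] at ha
    rw [mem_compl, mem_union, not_or]
    exact ⟨fun h => (Finset.disjoint_left.1 hA.2.1 ha.1) h, ha.2⟩
  · intro B hB
    rw [mem_powersetCard] at hB
    have hd : Disjoint B (I ∪ X) := Finset.disjoint_left.2 fun a ha h =>
      (mem_compl.1 (hB.1 ha)) h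
    have hd2 : Disjoint B X := Finset.disjoint_of_subset_right subset_union_right hd
    rw [mem_filter, mem_powersetCard, card_union_of_disjoint hd2, hX, hB.2]
    refine ⟨⟨subset_univ _, by omega⟩, ?_, subset_union_right⟩
    rw [disjoint_union_left]
    exact ⟨Finset.disjoint_of_subset_right subset_union_left hd, hIX.symm⟩
  · intro A hA
    rw [mem_filter] at hA
    exact sdiff_union_of_subset hA.2.2
  · intro B hB
    rw [mem_powersetCard] at hB
    have hd : Disjoint B X := Finset.disjoint_left.2 fun a ha h =>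
      (mem_compl.1 (hB.1 ha)) (mem_union_right _ h)
    rw [union_sdiff_right]
    exact sdiff_eq_self_of_disjoint hd

/-- sums over the subsets of `R` contained in `X` -/
theorem sum_pow (c : ℕ → ℝ) (R X : Finset (Fin n)) :
    (∑ Y ∈ R.powerset, if Y ⊆ X then c Y.card else 0) = ∑ Y ∈ (R ∩ X).powerset, c Y.card := by
  rw [← Finset.sum_filter]
  refine Finset.sum_congr ?_ fun _ _ => rfl
  ext Y
  rw [mem_filter, mem_powerset, mem_powerset, subset_inter_iff]

theorem vand (m N K : ℕ) : ∑ l ∈ range (m + 1), (m.choose l : ℝ) *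
    (if l ≤ K then ((N.choose (K - l) : ℕ) : ℝ) else 0) = ((N + m).choose K : ℝ) := by
  have h1 : (N + m).choose K = ∑ l ∈ range (K + 1), m.choose l * N.choose (K - l) := by
    rw [add_comm, Nat.add_choose_eq, Finset.Nat.sum_antidiagonal_eq_sum_range_succ_mk]
  rw [h1]
  push_cast
  have e1 : ∑ l ∈ range (m + 1), (m.choose l : ℝ) *
      (if l ≤ K then ((N.choose (K - l) : ℕ) : ℝ) else 0) = ∑ l ∈ range (m + K + 1), (m.choose l : ℝ) *
      (if l ≤ K then ((N.choose (K - l) : ℕ) : ℝ) else 0) := by
    refine Finset.sum_subset (fun l hl => ?_) fun l _ hl => ?_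
    · rw [mem_range] at hl ⊢
      omega
    · rw [mem_range, not_lt] at hl
      rw [Nat.choose_eq_zero_of_lt (by omega)]
      simp
  have e2 : ∑ l ∈ range (K + 1), (m.choose l : ℝ) * (N.choose (K - l) : ℝ) =
      ∑ l ∈ range (m + K + 1), (m.choose l : ℝ) *
      (if l ≤ K then ((N.choose (K - l) : ℕ) : ℝ) else 0) := by
    rw [← Finset.sum_subset (s₁ := range (K + 1)) (s₂ := range (m + K + 1)) (fun l hl => ?_)
      fun l _ hl => ?_]
    · refine Finset.sum_congr rfl fun l hl => ?_
      rw [mem_range] at hl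
      rw [if_pos (by omega)]
    · rw [mem_range] at hl ⊢
      omega
    · rw [mem_range, not_lt] at hl
      rw [if_neg (by omega), mul_zero]
  rw [e1, e2]

theorem t_HA : S_HA := by
  intro n k j u h2k hjk hu
  refine ⟨fun R hR => ?_, fun I hI => ?_⟩
  · unfold up
    rw [swap]
    obtain ⟨c, hc⟩ : ∃ c : ℕ → ℝ, ∀ l, c l = if l ≤ n - k then
      (((n - R.card - j).choose (n - k - l) : ℕ) : ℝ) else 0 := ⟨_, fun _ => rfl⟩
    have h1 : ∀ X ∈ slice n j, u X * (((slice n k).filter fun A => R ⊆ A ∧ X ⊆ A).card : ℝ) =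
        u X * (∑ Y ∈ R.powerset, if Y ⊆ X then c Y.card else 0) := by
      intro X hX
      rw [mem_powersetCard] at hX
      congr 1
      have e1 : ((slice n k).filter fun A => R ⊆ A ∧ X ⊆ A) =
          (slice n k).filter fun A => R ∪ X ⊆ A :=
        Finset.filter_congr fun A _ => union_subset_iff.symm
      rw [e1, card_super (by omega), sum_pow, Finset.sum_powerset_apply_card]
      simp only [nsmul_eq_mul, hc]
      rw [vand]
      congr 2
      have h3 := card_union_add_card_inter R X
      have h4 := card_le_card (inter_subset_left (s₁ := R) (s₂ := X))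
      omega
    rw [Finset.sum_congr rfl h1, harm_sum hu, hc, if_pos (by omega)]
    congr 2
    rw [← Nat.choose_symm (show k - R.card ≤ n - R.card - j by omega)]
    congr 1
    omega
  · unfold av
    rw [swap]
    have h1 : ∀ X ∈ slice n j, u X * (((slice n k).filter fun A => Disjoint A I ∧ X ⊆ A).card : ℝ) =
        ((n - I.card - j).choose (k - j) : ℝ) *
        (u X * (∑ Y ∈ I.powerset, if Y ⊆ X then (fun l => (-1 : ℝ) ^ l) Y.card else 0)) := by
      intro X hX
      rw [mem_powersetCard] at hX
      rw [sum_pow]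
      have e1 : ∑ Y ∈ (I ∩ X).powerset, (fun l => (-1 : ℝ) ^ l) Y.card =
          if I ∩ X = ∅ then 1 else 0 := by
        have h5 := Finset.sum_powerset_neg_one_pow_card (x := I ∩ X)
        have h6 := congrArg (fun z : ℤ => (z : ℝ)) h5
        push_cast at h6
        exact h6
      rw [e1]
      split_ifs with h
      · rw [card_disj I X hX.2 hjk (Finset.disjoint_iff_inter_eq_empty.2 h)]
        ring
      · have h7 : ((slice n k).filter fun A => Disjoint A I ∧ X ⊆ A) = ∅ := by
          rw [Finset.filter_eq_empty_iff]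
          rintro A _ ⟨h8, h9⟩
          apply h
          rw [← Finset.disjoint_iff_inter_eq_empty]
          exact (Finset.disjoint_of_subset_left h9 h8).symm
        rw [h7]
        simp
    rw [Finset.sum_congr rfl h1, ← Finset.mul_sum, harm_sum hu]
    ring

end Pool.Agent.P8H4.TI
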