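import Pool.Agent.P8H39.TI.Stm4

/-!
# Project TI, package XB: the correction of the eigenvalue of degree `t+m`
-/

set_option autoImplicit false

namespace Pool.Agent.P8H4.TI

open Finset Pool.Agent.P8H39.TI

/-- lower bound for binomial coefficients with a smaller top -/
theorem choose_sub_ge (N K : ℕ) (X : ℝ) (hX : 0 < X) :
    ∀ d : ℕ, (d : ℝ) + X ≤ (N : ℝ) + 1 →
      ((N.choose K : ℕ) : ℝ) * (1 - d * K / X) ≤ (((N - d).choose K : ℕ) : ℝ) := by
  intro d
  induction d with
  | zero => intro _; simp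
  | succ d ih =>
    intro h
    push_cast at h
    have h1 := ih (by linarith)
    have hdN : d < N := by
      have : (d : ℝ) < N := by linarith
      exact_mod_cast this
    obtain ⟨M, hM⟩ : ∃ M, N - d = M + 1 := ⟨N - d - 1, by omega⟩
    have hM2 : N - (d + 1) = M := by omega
    have hMr : ((M : ℝ) + 1) = N - d := by
      have : M + 1 + d = N := by omega
      have h2 : ((M + 1 + d : ℕ) : ℝ) = N := by rw [this]
      push_cast at h2
      linarith
    have hXM : X ≤ (M : ℝ) + 1 := by linarith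
    rw [hM] at h1
    rw [hM2]
    have hmono : (((M + 1).choose K : ℕ) : ℝ) ≤ ((N.choose K : ℕ) : ℝ) := by
      have : (M + 1) ≤ N := by omega
      exact_mod_cast Nat.choose_le_choose K this
    -- C(M+1,K) (M+1-K) = C(M,K) (M+1)
    have hkey : (((M + 1).choose K : ℕ) : ℝ) - ((M.choose K : ℕ) : ℝ) ≤
        ((N.choose K : ℕ) : ℝ) * (K / X) := by
      rcases Nat.eq_zero_or_pos K with hK | hK
      · subst hK; simp
      · obtain ⟨J, rfl⟩ : ∃ J, K = J + 1 := ⟨K - 1, by omega⟩
        have e1 : (M + 1).choose (J + 1) = M.choose J + M.choose (J + 1) := Nat.choose_succ_succ M J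
        have e2 : (M + 1) * M.choose J = (M + 1).choose (J + 1) * (J + 1) :=
          Nat.add_one_mul_choose_eq M J
        have e2' : ((M : ℝ) + 1) * (M.choose J : ℕ) = (((M + 1).choose (J + 1) : ℕ) : ℝ) * ((J : ℝ) + 1) := by
          exact_mod_cast e2
        have e1' : (((M + 1).choose (J + 1) : ℕ) : ℝ) = (M.choose J : ℕ) + (M.choose (J + 1) : ℕ) := by
          exact_mod_cast e1
        have e3 : (M.choose J : ℝ) * X ≤ ((N.choose (J + 1) : ℕ) : ℝ) * ((J : ℝ) + 1) := by
          calc (M.choose J : ℝ) * X ≤ (M.choose J : ℝ) * ((M : ℝ) + 1) := by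
                apply mul_le_mul_of_nonneg_left hXM (Nat.cast_nonneg _)
            _ = (((M + 1).choose (J + 1) : ℕ) : ℝ) * ((J : ℝ) + 1) := by rw [← e2']; ring
            _ ≤ _ := by
                apply mul_le_mul_of_nonneg_right hmono (by positivity)
        have e4 : (M.choose J : ℝ) ≤ ((N.choose (J + 1) : ℕ) : ℝ) * (((J : ℝ) + 1) / X) := by
          rw [← mul_div_assoc, le_div_iff₀ hX]
          exact e3
        push_cast
        rw [e1']
        linarith
    have : ((N.choose K : ℕ) : ℝ) * (1 - ((d + 1 : ℕ) : ℝ) * K / X) =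
        ((N.choose K : ℕ) : ℝ) * (1 - d * K / X) - ((N.choose K : ℕ) : ℝ) * (K / X) := by
      push_cast; ring
    rw [this]
    linarith

/-- the numbers `s_l` decrease at least by the factor `κ/ν` -/
theorem choose_step (ν κ a : ℕ) (hκ : κ ≤ ν) (hν : 0 < ν) (ha : a ≤ κ) : ∀ Q : ℕ,
    (((ν - (a + Q)).choose (ν - κ) : ℕ) : ℝ) ≤
      (((ν - a).choose (κ - a) : ℕ) : ℝ) * ((κ : ℝ) / ν) ^ Q := by
  have hνr : (0 : ℝ) < ν := by exact_mod_cast hν
  have hκr : (κ : ℝ) ≤ ν := by exact_mod_cast hκ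
  intro Q
  induction Q with
  | zero =>
    have : (ν - a).choose (ν - κ) = (ν - a).choose (κ - a) := by
      apply Nat.choose_symm_of_eq_add
      omega
    simp [this]
  | succ Q ih =>
    rcases Nat.lt_or_ge (a + Q) κ with hlt | hge
    · obtain ⟨M, hM⟩ : ∃ M, ν - (a + Q) = M + 1 := ⟨ν - (a + Q) - 1, by omega⟩
      have hM2 : ν - (a + (Q + 1)) = M := by omega
      rw [hM2]
      rw [hM] at ih
      have e := Nat.choose_mul_succ_eq M (ν - κ)
      -- M.choose k * (M+1) = (M+1).choose k * (M + 1 - k)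
      have e' : ((M.choose (ν - κ) : ℕ) : ℝ) * ((M : ℝ) + 1) =
          (((M + 1).choose (ν - κ) : ℕ) : ℝ) * ((M + 1 - (ν - κ) : ℕ) : ℝ) := by
        exact_mod_cast e
      have hMl : M + 1 - (ν - κ) = κ - (a + Q) := by omega
      rw [hMl] at e'
      have hl : (((κ - (a + Q) : ℕ)) : ℝ) * ν ≤ κ * ((M : ℝ) + 1) := by
        have h1 : ((κ - (a + Q) : ℕ) : ℝ) = κ - ((a : ℝ) + Q) := by
          rw [Nat.cast_sub hlt.le]; push_cast; ring
        have h2 : ((M : ℝ) + 1) = ν - ((a : ℝ) + Q) := by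
          have : M + 1 + (a + Q) = ν := by omega
          have h2 : ((M + 1 + (a + Q) : ℕ) : ℝ) = ν := by rw [this]
          push_cast at h2
          linarith
        rw [h1, h2]
        have : (0 : ℝ) ≤ (a : ℝ) + Q := by positivity
        nlinarith
      have hM0 : (0 : ℝ) < (M : ℝ) + 1 := by positivity
      have h3 : ((M.choose (ν - κ) : ℕ) : ℝ) ≤
          (((M + 1).choose (ν - κ) : ℕ) : ℝ) * ((κ : ℝ) / ν) := by
        have : ((M.choose (ν - κ) : ℕ) : ℝ) =
            (((M + 1).choose (ν - κ) : ℕ) : ℝ) * (((κ - (a + Q) : ℕ) : ℝ) / ((M : ℝ) + 1)) := by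
          rw [← mul_div_assoc, eq_div_iff hM0.ne']
          exact e'
        rw [this]
        apply mul_le_mul_of_nonneg_left _ (Nat.cast_nonneg _)
        rw [div_le_div_iff₀ hM0 hνr]
        exact hl
      calc ((M.choose (ν - κ) : ℕ) : ℝ) ≤
          (((M + 1).choose (ν - κ) : ℕ) : ℝ) * ((κ : ℝ) / ν) := h3
        _ ≤ ((((ν - a).choose (κ - a) : ℕ) : ℝ) * ((κ : ℝ) / ν) ^ Q) * ((κ : ℝ) / ν) := by
            apply mul_le_mul_of_nonneg_right ih (by positivity)
        _ = _ := by rw [pow_succ]; ring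
    · have : (ν - (a + (Q + 1))).choose (ν - κ) = 0 ∨ ν - (a + (Q+1)) ≥ ν - κ := by
        rcases Nat.lt_or_ge (ν - (a + (Q + 1))) (ν - κ) with h | h
        · left; exact Nat.choose_eq_zero_of_lt h
        · right; exact h
      rcases this with h | h
      · rw [h]; push_cast; positivity
      · have h5 : ν ≤ κ := by omega
        have h6 : (κ : ℝ) = ν := by
          have : κ = ν := le_antisymm hκ h5
          rw [this]
        rw [h6, div_self hνr.ne', one_pow, mul_one]
        rw [h6, div_self hνr.ne', one_pow, mul_one] at ih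
        refine le_trans ?_ ih
        have : (ν - (a + (Q + 1))) ≤ ν - (a + Q) := by omega
        exact_mod_cast Nat.choose_le_choose _ this

/-- the factorial part of one term -/
theorem asc_choose_le (t m v Q r : ℕ) (hm : 1 ≤ m) (hr : t + m - 1 + v ≤ r) :
    ((m.ascFactorial v : ℕ) : ℝ) * (((t + m - 1 + v).choose (Q + m + v) : ℕ) : ℝ) ≤
      (r : ℝ) ^ (Q + m + v) := by
  have h1 : m.ascFactorial v ≤ (Q + m + v).factorial := by
    obtain ⟨l, rfl⟩ : ∃ l, m = l + 1 := ⟨m - 1, by omega⟩
    have h2 : l.factorial * (l + 1).ascFactorial v = (l + v).factorial :=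
      Nat.factorial_mul_ascFactorial l v
    calc (l + 1).ascFactorial v ≤ l.factorial * (l + 1).ascFactorial v :=
          Nat.le_mul_of_pos_left _ (Nat.factorial_pos l)
      _ = (l + v).factorial := h2
      _ ≤ _ := Nat.factorial_le (by omega)
  have h3 : (t + m - 1 + v).descFactorial (Q + m + v) ≤ (t + m - 1 + v) ^ (Q + m + v) :=
    Nat.descFactorial_le_pow _ _
  have h4 : (t + m - 1 + v).descFactorial (Q + m + v) =
      (Q + m + v).factorial * (t + m - 1 + v).choose (Q + m + v) :=
    Nat.descFactorial_eq_factorial_mul_choose _ _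
  have h5 : m.ascFactorial v * (t + m - 1 + v).choose (Q + m + v) ≤ r ^ (Q + m + v) :=
    calc m.ascFactorial v * (t + m - 1 + v).choose (Q + m + v)
        ≤ (Q + m + v).factorial * (t + m - 1 + v).choose (Q + m + v) :=
          Nat.mul_le_mul_right _ h1
      _ = (t + m - 1 + v).descFactorial (Q + m + v) := h4.symm
      _ ≤ (t + m - 1 + v) ^ (Q + m + v) := h3
      _ ≤ r ^ (Q + m + v) := Nat.pow_le_pow_left hr _
  exact_mod_cast h5

theorem geom_le (x y : ℝ) (hx : 0 ≤ x) (hy : x ≤ y * (1 - x)) (hx1 : x < 1) (n : ℕ) :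
    ∑ i ∈ range n, x ^ (i + 1) ≤ y := by
  have h : ∀ n : ℕ, (∑ i ∈ range n, x ^ (i + 1)) * (1 - x) = x * (1 - x ^ n) := by
    intro n
    induction n with
    | zero => simp
    | succ n ih => rw [sum_range_succ, add_mul, ih]; ring
  have h1 : 0 < 1 - x := by linarith
  have h2 : x ^ n ≥ 0 := pow_nonneg hx n
  have h3 : (∑ i ∈ range n, x ^ (i + 1)) * (1 - x) ≤ y * (1 - x) := by
    rw [h n]; nlinarith
  exact le_of_mul_le_mul_right h3 h1

theorem t_XB : S_XB := by
  intro ν κ t a m ht hm hma haκ hν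
  -- the basic sizes
  have hκ2 : 2 ≤ κ := by omega
  have hrκ : 2 * (t + a) ≤ (t + a) * κ := by nlinarith
  have hκr' : κ ≤ (t + a) * κ := Nat.le_mul_of_pos_left _ (by omega)
  have hκν : κ ≤ ν := by nlinarith
  have hν0 : 0 < ν := by omega
  have hνr : (0 : ℝ) < ν := by exact_mod_cast hν0
  refine ⟨?_, ?_⟩
  swap
  · have : ν - a - t - m ≤ ν - a := by omega
    exact_mod_cast Nat.choose_le_choose _ this
  set r := t + a with hr
  set s : ℝ := (((ν - a).choose (κ - a) : ℕ) : ℝ) with hs
  have hs0 : 0 ≤ s := Nat.cast_nonneg _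
  -- the lower bound for E
  have hE : 6 / 7 * s ≤ (((ν - a - t - m).choose (κ - a) : ℕ) : ℝ) := by
    have hle : a + t + m ≤ ν := by nlinarith
    set X : ℝ := (ν : ℝ) - a - t - m with hX
    have hXn : X = ((ν - (a + t + m) : ℕ) : ℝ) := by
      rw [Nat.cast_sub hle]; push_cast; rw [hX]; ring
    have hκa : (((κ - a : ℕ)) : ℝ) = κ - a := by rw [Nat.cast_sub haκ.le]
    have h7 : 7 * ((t + m : ℕ) : ℝ) * ((κ - a : ℕ) : ℝ) ≤ X := by
      have : 7 * (t + m) * (κ - a) + (a + t + m) ≤ ν := by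
        have h1 : 7 * (t + m) * (κ - a) ≤ 7 * r * κ := by
          apply Nat.mul_le_mul _ (by omega)
          apply Nat.mul_le_mul_left; omega
        have h2 : a + t + m ≤ r * κ := by
          have : a + t + m ≤ 2 * r := by omega
          omega
        nlinarith
      have h8 : ((7 * (t + m) * (κ - a) + (a + t + m) : ℕ) : ℝ) ≤ ν := by exact_mod_cast this
      push_cast at h8
      push_cast
      rw [hX]
      linarith
    have hXpos : 0 < X := by
      have : 1 ≤ 7 * (t + m) * (κ - a) := by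
        have h1 : 0 < κ - a := by omega
        have h2 : 0 < 7 * (t + m) := by omega
        exact Nat.mul_pos h2 h1
      have h2 : (1 : ℝ) ≤ 7 * ((t + m : ℕ) : ℝ) * ((κ - a : ℕ) : ℝ) := by exact_mod_cast this
      linarith
    have h9 := choose_sub_ge (ν - a) (κ - a) X hXpos (t + m) (by
      have : ((ν - a : ℕ) : ℝ) = ν - a := by rw [Nat.cast_sub (by omega)]
      rw [this, hX]; push_cast; linarith)
    have h10 : ν - a - (t + m) = ν - a - t - m := by omega
    rw [h10] at h9
    refine le_trans ?_ h9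
    rw [mul_comm]
    apply mul_le_mul_of_nonneg_left _ hs0
    have : ((t + m : ℕ) : ℝ) * ((κ - a : ℕ) : ℝ) / X ≤ 1 / 7 := by
      rw [div_le_div_iff₀ hXpos (by norm_num)]
      linarith
    linarith
  -- the upper bound for the correction
  have hν8n : 8 * (r * κ) ≤ ν := by rw [← mul_assoc]; exact hν
  have hW : 7 * (r * κ) ≤ ν - 2 * r := by omega
  have hrκ0 : 0 < r * κ := by
    apply Nat.mul_pos <;> omega
  set W : ℝ := ((ν - 2 * r : ℕ) : ℝ) with hWd
  have hWr : 7 * ((r : ℝ) * κ) ≤ W := by rw [hWd]; exact_mod_cast hW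
  have hrκr : (0 : ℝ) < (r : ℝ) * κ := by exact_mod_cast hrκ0
  have hW0 : 0 < W := by linarith
  have hν8 : 8 * ((r : ℝ) * κ) ≤ ν := by
    exact_mod_cast hν8n
  have hq1 : (r : ℝ) * κ / ν ≤ 1 / 8 := by
    rw [div_le_div_iff₀ hνr (by norm_num)]; linarith
  have hq2 : (r : ℝ) * κ / W ≤ 1 / 7 := by
    rw [div_le_div_iff₀ hW0 (by norm_num)]; linarith
  have hterm : ∀ q ∈ Ico (a + 1) (t + a), ∀ v ∈ range (a - m + 1),
      ((ν - q).choose (ν - κ) : ℝ) * (κ.descFactorial m : ℝ) *
        (((a - m).choose v : ℝ) * (m.ascFactorial v : ℝ) /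
          ((ν - t - m).descFactorial (m + v) : ℝ) * ((t + m - 1 + v).choose (q - (a - m) + v) : ℝ)) ≤
      s * (1 / 8) ^ (q - a) * (1 / 7) ^ (v + 1) := by
    intro q hq v hv
    rw [mem_Ico] at hq
    rw [mem_range] at hv
    obtain ⟨Q, rfl⟩ : ∃ Q, q = a + Q := ⟨q - a, by omega⟩
    have hQ1 : 1 ≤ Q := by omega
    have e1 : a + Q - (a - m) + v = Q + m + v := by omega
    have e2 : a + Q - a = Q := by omega
    rw [e1, e2]
    have b1 := choose_step ν κ a hκν hν0 haκ.le Q
    have b2 : ((κ.descFactorial m : ℕ) : ℝ) ≤ (κ : ℝ) ^ m := by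
      exact_mod_cast Nat.descFactorial_le_pow κ m
    have b3 : (((a - m).choose v : ℕ) : ℝ) ≤ (κ : ℝ) ^ v := by
      have h1 : (a - m).choose v ≤ (a - m) ^ v := Nat.choose_le_pow _ _
      have h2 : (a - m) ^ v ≤ κ ^ v := Nat.pow_le_pow_left (by omega) v
      exact_mod_cast h1.trans h2
    have b4 := asc_choose_le t m v Q r hm (by omega)
    have b5 : W ^ (m + v) ≤ (((ν - t - m).descFactorial (m + v) : ℕ) : ℝ) := by
      have h1 : (ν - t - m + 1 - (m + v)) ^ (m + v) ≤ (ν - t - m).descFactorial (m + v) :=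
        Nat.pow_sub_le_descFactorial _ _
      have h2 : ν - 2 * r ≤ ν - t - m + 1 - (m + v) := by omega
      have h3 := (Nat.pow_le_pow_left h2 (m + v)).trans h1
      rw [hWd]
      exact_mod_cast h3
    have hWp : 0 < W ^ (m + v) := pow_pos hW0 _
    have b6 : (((a - m).choose v : ℝ) * (m.ascFactorial v : ℝ) /
          ((ν - t - m).descFactorial (m + v) : ℝ) * ((t + m - 1 + v).choose (Q + m + v) : ℝ)) ≤
        (κ : ℝ) ^ v * (r : ℝ) ^ (Q + m + v) / W ^ (m + v) := by
      rw [div_mul_eq_mul_div, mul_assoc]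
      apply div_le_div₀ (by positivity) _ hWp b5
      exact mul_le_mul b3 b4 (by positivity) (by positivity)
    calc ((ν - (a + Q)).choose (ν - κ) : ℝ) * (κ.descFactorial m : ℝ) *
        (((a - m).choose v : ℝ) * (m.ascFactorial v : ℝ) /
          ((ν - t - m).descFactorial (m + v) : ℝ) * ((t + m - 1 + v).choose (Q + m + v) : ℝ))
        ≤ (s * ((κ : ℝ) / ν) ^ Q) * (κ : ℝ) ^ m *
          ((κ : ℝ) ^ v * (r : ℝ) ^ (Q + m + v) / W ^ (m + v)) := by
          apply mul_le_mul _ b6 (by positivity) (by positivity)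
          exact mul_le_mul b1 b2 (by positivity) (by positivity)
      _ = s * ((r : ℝ) * κ / ν) ^ Q * ((r : ℝ) * κ / W) ^ (m + v) := by
          simp only [div_pow, mul_pow, pow_add]
          field_simp
      _ ≤ s * (1 / 8) ^ Q * (1 / 7) ^ (v + 1) := by
          apply mul_le_mul
          · apply mul_le_mul_of_nonneg_left _ hs0
            exact pow_le_pow_left₀ (by positivity) hq1 Q
          · calc ((r : ℝ) * κ / W) ^ (m + v) ≤ (1 / 7) ^ (m + v) :=
                  pow_le_pow_left₀ (by positivity) hq2 _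
              _ ≤ (1 / 7 : ℝ) ^ (v + 1) :=
                  pow_le_pow_of_le_one (by norm_num) (by norm_num) (by omega)
          · positivity
          · positivity
  have hcorr : corr ν κ t a m ≤ s * (1 / 7) * (1 / 6) := by
    unfold corr
    calc ∑ q ∈ Ico (a + 1) (t + a), ((ν - q).choose (ν - κ) : ℝ) * (κ.descFactorial m : ℝ) *
          ∑ v ∈ range (a - m + 1), ((a - m).choose v : ℝ) * (m.ascFactorial v : ℝ) /
            ((ν - t - m).descFactorial (m + v) : ℝ) * ((t + m - 1 + v).choose (q - (a - m) + v) : ℝ)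
        ≤ ∑ q ∈ Ico (a + 1) (t + a), s * (1 / 8) ^ (q - a) * (1 / 6) := by
          apply sum_le_sum
          intro q hq
          rw [mul_sum]
          calc _ ≤ ∑ v ∈ range (a - m + 1), s * (1 / 8) ^ (q - a) * (1 / 7) ^ (v + 1) :=
                sum_le_sum (fun v hv => hterm q hq v hv)
            _ = s * (1 / 8) ^ (q - a) * ∑ v ∈ range (a - m + 1), (1 / 7 : ℝ) ^ (v + 1) := by
                rw [mul_sum]
            _ ≤ _ := by
                apply mul_le_mul_of_nonneg_left _ (by positivity)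
                exact geom_le (1 / 7) (1 / 6) (by norm_num) (by norm_num) (by norm_num) _
      _ = s * (∑ q ∈ Ico (a + 1) (t + a), (1 / 8 : ℝ) ^ (q - a)) * (1 / 6) := by
          rw [mul_sum, sum_mul]
      _ ≤ s * (1 / 7) * (1 / 6) := by
          apply mul_le_mul_of_nonneg_right _ (by norm_num)
          apply mul_le_mul_of_nonneg_left _ hs0
          rw [sum_Ico_eq_sum_range]
          have : ∀ i, a + 1 + i - a = i + 1 := fun i => by omega
          simp only [this]
          exact geom_le (1 / 8) (1 / 7) (by norm_num) (by norm_num) (by norm_num) _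
  linarith

end Pool.Agent.P8H4.TI
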