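import Pool.Agent.P8H39.TI.Stm

/-! Project TI of helper39, package CVX (helper4): a quadratic majorant of a power. -/

set_option autoImplicit false

namespace Pool.Agent.P8H4.TI

open Pool.Agent.P8H39.TI

theorem t_CVX : S_CVX := by
  intro p a D x hp ha haD hx hxD
  have hda : 0 < D - a := sub_pos.2 haD
  obtain ⟨c, hc0⟩ : ∃ c, c = (D ^ p - a ^ p - p * a ^ (p - 1) * (D - a)) / (D - a) ^ 2 := ⟨_, rfl⟩
  have hc : c * (D - a) ^ 2 = D ^ p - a ^ p - p * a ^ (p - 1) * (D - a) := by
    rw [hc0]
    exact div_mul_cancel₀ _ (by positivity)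
  have hpow : ∀ y : ℝ, HasDerivAt (fun x : ℝ => x ^ p) (p * y ^ (p - 1)) y := fun y =>
    Real.hasDerivAt_rpow_const (Or.inr (by linarith))
  obtain ⟨h, hh⟩ : ∃ h : ℝ → ℝ, h = fun x => a ^ p + p * a ^ (p - 1) * (x - a) + c * (x - a) ^ 2 - x ^ p :=
    ⟨_, rfl⟩
  obtain ⟨φ, hφ⟩ : ∃ φ : ℝ → ℝ, φ = fun x => p * a ^ (p - 1) + 2 * c * (x - a) - p * x ^ (p - 1) :=
    ⟨_, rfl⟩
  have hder : ∀ y, HasDerivAt h (φ y) y := by
    intro y
    have h2 : HasDerivAt (fun x : ℝ => x - a) 1 y := (hasDerivAt_id y).sub_const a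
    have h3 := (((h2.const_mul (p * a ^ (p - 1))).const_add (a ^ p)).add ((h2.pow 2).const_mul c)).sub
      (hpow y)
    rw [hh]
    refine h3.congr_deriv ?_
    rw [hφ]
    simp
    ring
  have hcont : Continuous h := continuous_iff_continuousAt.2 fun y => (hder y).continuousAt
  -- the mean value theorem
  have mvt : ∀ u v : ℝ, u < v → ∃ ξ, u < ξ ∧ ξ < v ∧ φ ξ * (v - u) = h v - h u := by
    intro u v huv
    obtain ⟨ξ, hξ, he⟩ := exists_hasDerivAt_eq_slope h φ huv hcont.continuousOn fun y _ => hder y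
    refine ⟨ξ, hξ.1, hξ.2, ?_⟩
    rw [he]
    exact div_mul_cancel₀ _ (sub_pos.2 huv).ne'
  -- concavity of the derivative
  have conc : ∀ u v w : ℝ, 0 ≤ u → u < v → v < w → (w - v) * φ u + (v - u) * φ w ≤ (w - u) * φ v := by
    intro u v w hu huv hvw
    have hwu : 0 < w - u := by linarith
    have h1 := (convexOn_rpow (by linarith : (1 : ℝ) ≤ p - 1)).2 (show u ∈ Set.Ici (0 : ℝ) from hu)
      (show w ∈ Set.Ici (0 : ℝ) from by rw [Set.mem_Ici]; linarith)
      (show 0 ≤ (w - v) / (w - u) from div_nonneg (by linarith) hwu.le)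
      (show 0 ≤ (v - u) / (w - u) from div_nonneg (by linarith) hwu.le)
      (by rw [← add_div]; exact (div_eq_one_iff_eq hwu.ne').2 (by ring))
    simp only [smul_eq_mul] at h1
    have e1 : (w - v) / (w - u) * u + (v - u) / (w - u) * w = v := by
      field_simp
      ring
    rw [e1] at h1
    have h2 : (w - u) * v ^ (p - 1) ≤ (w - v) * u ^ (p - 1) + (v - u) * w ^ (p - 1) := by
      have h3 := mul_le_mul_of_nonneg_left h1 hwu.le
      have e2 : (w - u) * ((w - v) / (w - u) * u ^ (p - 1) + (v - u) / (w - u) * w ^ (p - 1)) =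
          (w - v) * u ^ (p - 1) + (v - u) * w ^ (p - 1) := by
        field_simp
      rw [e2] at h3
      exact h3
    have h3 := mul_le_mul_of_nonneg_left h2 (show (0 : ℝ) ≤ p by linarith)
    rw [hφ]
    nlinarith [h3]
  have ha0 : h a = 0 := by
    rw [hh]
    simp
  have hD0 : h D = 0 := by
    rw [hh]
    simp only
    rw [hc]
    ring
  have hφa : φ a = 0 := by
    rw [hφ]
    simp
  have hxh : 0 ≤ h x := by
    by_contra hneg
    rw [not_le] at hneg
    rcases lt_trichotomy x a with hxa | hxa | hxa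
    · obtain ⟨ξ, h1, h2, h3⟩ := mvt x a hxa
      obtain ⟨y, h4, h5, h6⟩ := mvt a D haD
      rw [ha0, hD0, sub_self] at h6
      have hy : φ y = 0 := by
        rcases mul_eq_zero.1 h6 with h7 | h7
        · exact h7
        · linarith
      have hξ : 0 < φ ξ := by
        rw [ha0] at h3
        by_contra h8
        rw [not_lt] at h8
        nlinarith
      have h9 := conc ξ a y (by linarith) h2 h4
      rw [hφa, hy] at h9
      nlinarith
    · rw [hxa, ha0] at hneg
      exact lt_irrefl _ hneg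
    · have hxD' : x < D := by
        refine lt_of_le_of_ne hxD ?_
        rintro rfl
        rw [hD0] at hneg
        exact lt_irrefl _ hneg
      obtain ⟨ξ, h1, h2, h3⟩ := mvt a x hxa
      obtain ⟨y, h4, h5, h6⟩ := mvt x D hxD'
      rw [ha0, sub_zero] at h3
      rw [hD0, zero_sub] at h6
      have hξ : φ ξ < 0 := by
        by_contra h8
        rw [not_lt] at h8
        nlinarith
      have hy : 0 < φ y := by
        by_contra h8
        rw [not_lt] at h8
        nlinarith
      have h9 := conc a ξ y ha h1 (h2.trans h4)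
      rw [hφa] at h9
      nlinarith
  rw [← hc0]
  constructor
  · -- the coefficient is nonnegative
    obtain ⟨ξ, h1, h2⟩ := exists_hasDerivAt_eq_slope (fun x : ℝ => x ^ p) (fun y => p * y ^ (p - 1)) haD
      (fun y _ => (hpow y).continuousAt.continuousWithinAt) fun y _ => hpow y
    have h3 : p * ξ ^ (p - 1) * (D - a) = D ^ p - a ^ p := by
      rw [h2]
      exact div_mul_cancel₀ _ hda.ne'
    have h4 : a ^ (p - 1) ≤ ξ ^ (p - 1) := Real.rpow_le_rpow ha h1.1.le (by linarith)
    have h5 : p * a ^ (p - 1) * (D - a) ≤ p * ξ ^ (p - 1) * (D - a) :=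
      mul_le_mul_of_nonneg_right (mul_le_mul_of_nonneg_left h4 (by linarith)) hda.le
    rw [hc0]
    exact div_nonneg (by linarith) (by positivity)
  · rw [hh] at hxh
    simp only at hxh
    linarith

end Pool.Agent.P8H4.TI
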